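import Pool.Agent.Helper95.LN.Stmts

set_option autoImplicit false

namespace Pool.Agent.Helper28.LN

open MeasureTheory Filter Pool.Agent.Helper95.PW Pool.Agent.Helper95.LN

theorem clm_sum (L : R3 →L[ℝ] ℝ) (ξ : R3) : L ξ = ∑ i, ξ i * L (Pi.single i 1) := by
  have h : ξ = ∑ i, ξ i • (Pi.single i (1 : ℝ) : R3) := by
    funext j
    simp [Finset.sum_apply, Pi.single_apply]
  conv_lhs => rw [h]
  rw [map_sum]
  exact Finset.sum_congr rfl (fun i _ => by rw [map_smul, smul_eq_mul])

theorem nr_nonneg (y : R3) : 0 ≤ nr y := Real.sqrt_nonneg _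

theorem nr_sq (y : R3) : nr y ^ 2 = ∑ m, y m ^ 2 := by
  rw [nr, Real.sq_sqrt (by positivity), Fin.sum_univ_three]

theorem nr_symm (x y : R3) : nr (x - y) = nr (y - x) := by
  unfold nr
  congr 1
  simp only [Pi.sub_apply]
  ring

theorem abs_le_nr (y : R3) (m : Fin 3) : |y m| ≤ nr y := by
  apply Real.abs_le_sqrt
  fin_cases m <;> simp <;> nlinarith [sq_nonneg (y 0), sq_nonneg (y 1), sq_nonneg (y 2)]

theorem nr_tri (x y z : R3) : nr (x - z) ≤ nr (x - y) + nr (y - z) := by
  have h : ∀ a b : R3, nr (a + b) ≤ nr a + nr b := by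
    intro a b
    have h1 := nr_nonneg a
    have h2 := nr_nonneg b
    apply Real.sqrt_le_iff.mpr
    refine ⟨by positivity, ?_⟩
    have ha := nr_sq a
    have hb := nr_sq b
    rw [Fin.sum_univ_three] at ha hb
    have hc : a 0 * b 0 + a 1 * b 1 + a 2 * b 2 ≤ nr a * nr b := by
      apply le_of_sq_le_sq _ (by positivity)
      rw [mul_pow, ha, hb]
      nlinarith [sq_nonneg (a 0 * b 1 - a 1 * b 0), sq_nonneg (a 0 * b 2 - a 2 * b 0),
        sq_nonneg (a 1 * b 2 - a 2 * b 1)]
    simp only [Pi.add_apply]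
    nlinarith
  have := h (x - y) (y - z)
  rwa [sub_add_sub_cancel] at this
where
  le_of_sq_le_sq {a b : ℝ} (h : a ^ 2 ≤ b ^ 2) (hb : 0 ≤ b) : a ≤ b := by
    exact (abs_le_of_sq_le_sq' h hb).2

theorem hess (g : R3 → ℝ) (hg : ContDiff ℝ (⊤ : ℕ∞) g) (A : ℝ)
    (hH : ∀ (y : R3) (ξ : Fin 3 → ℝ),
      -(A * ∑ i, ξ i ^ 2) ≤ ∑ i, ∑ l, pd i (pd l g) y * ξ i * ξ l) (x y : R3) :
    -(A * nr (x - y) ^ 2) ≤ ∑ m, (pd m g x - pd m g y) * (x m - y m) := by
  have hpd : ∀ l, ContDiff ℝ (⊤ : ℕ∞) (pd l g) := fun l =>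
    (hg.fderiv_right (m := (⊤ : ℕ∞)) (by simp)).clm_apply contDiff_const
  have hd : ∀ t : ℝ, HasDerivAt (fun t : ℝ => ∑ m, pd m g (y + t • (x - y)) * (x m - y m))
      (∑ m, (fderiv ℝ (pd m g) (y + t • (x - y)) (x - y)) * (x m - y m)) t := by
    intro t
    apply HasDerivAt.fun_sum
    intro m _
    apply HasDerivAt.mul_const
    have h1 : HasFDerivAt (pd m g) (fderiv ℝ (pd m g) (y + t • (x - y))) (y + t • (x - y)) :=
      (((hpd m).differentiable (by simp)) _).hasFDerivAt
    have h2 : HasDerivAt (fun t : ℝ => y + t • (x - y)) (x - y) t := by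
      have := ((hasDerivAt_id t).smul_const (x - y)).const_add y
      simpa using this
    exact h1.comp_hasDerivAt t h2
  obtain ⟨c, hc, hc2⟩ := exists_hasDerivAt_eq_slope
    (fun t : ℝ => ∑ m, pd m g (y + t • (x - y)) * (x m - y m)) _ (zero_lt_one' ℝ)
    (fun t _ => (hd t).continuousAt.continuousWithinAt) (fun t _ => hd t)
  have h3 := hH (y + c • (x - y)) (x - y)
  rw [nr_sq]
  refine h3.trans (le_of_eq ?_)
  have h4 : ∑ m, (pd m g x - pd m g y) * (x m - y m) =
      ∑ m, (fderiv ℝ (pd m g) (y + c • (x - y)) (x - y)) * (x m - y m) := by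
    rw [hc2]
    simp only [one_smul, zero_smul, add_zero, sub_zero, div_one, add_sub_cancel]
    rw [← Finset.sum_sub_distrib]
    exact Finset.sum_congr rfl (fun m _ => by ring)
  rw [h4, Finset.sum_comm]
  refine Finset.sum_congr rfl (fun l _ => ?_)
  rw [clm_sum, Finset.sum_mul]
  refine Finset.sum_congr rfl (fun i _ => ?_)
  simp only [pd, Pi.sub_apply]
  ring

theorem tri {n : ℕ} (H : Fin n → Fin n → ℝ) (h0 : ∀ k, H k k = 0) :
    ∑ k, ∑ l, H k l = ∑ k, ∑ l, if k < l then H k l + H l k else 0 := by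
  have h1 : ∑ k, ∑ l, H k l = ∑ k, ∑ l, (if k < l then H k l else 0) +
      ∑ k, ∑ l, (if l < k then H k l else 0) := by
    rw [← Finset.sum_add_distrib]
    refine Finset.sum_congr rfl (fun k _ => ?_)
    rw [← Finset.sum_add_distrib]
    refine Finset.sum_congr rfl (fun l _ => ?_)
    rcases lt_trichotomy k l with h | h | h
    · simp [h, not_lt_of_gt h]
    · subst h
      simp [h0]
    · simp [h, not_lt_of_gt h]
  rw [h1, Finset.sum_comm (f := fun k l => if l < k then H k l else 0), ← Finset.sum_add_distrib]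
  refine Finset.sum_congr rfl (fun k _ => ?_)
  rw [← Finset.sum_add_distrib]
  refine Finset.sum_congr rfl (fun l _ => ?_)
  split_ifs <;> simp

theorem cb_nonneg : 0 ≤ cb :=
  intervalIntegral.integral_nonneg (by norm_num) (fun t _ => sq_nonneg _)

theorem kap_nonneg : 0 ≤ kap := by
  apply integral_nonneg
  intro y
  have := cb_nonneg
  have := nr_nonneg y
  simp only [et, Pi.zero_apply]
  positivity

theorem Dn_nonneg {n M : ℕ} (b : ℝ) (X : Fin M → R3) (Z : Fin M → ℝ) (x : Cf n) :
    0 ≤ Dn b X Z x := by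
  have := kap_nonneg
  apply mul_nonneg (by positivity)
  apply integral_nonneg
  intro y
  exact Finset.sum_nonneg (fun i _ => sq_nonneg _)

theorem VIR (hES1 : ST_ES1) (hNB : ST_NB) (hFF : ST_FF) (hKK : ST_KK) : ST_VIR := by
  intro z d A hz hd hA
  obtain ⟨C1, hC1, H1⟩ := hES1 z d hz hd
  obtain ⟨C2, hC2, H2⟩ := hNB z d hz hd
  obtain ⟨C3, hC3, H3⟩ := hFF z d hz hd
  have hA0 : 0 < A := by linarith
  obtain ⟨B, hB⟩ : ∃ B : ℝ, B = 16 * A / d * C2 + 3 * A / 2 * (C2 + C3) := ⟨_, rfl⟩
  have hB0 : 0 < B := by rw [hB]; positivity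
  obtain ⟨K, hK⟩ : ∃ K : ℝ, K = A + 2 * B + 3 * A * z := ⟨_, rfl⟩
  have hK0 : 0 < K := by rw [hK]; positivity
  refine ⟨K + C1 + z * d + 1, by positivity, ?_⟩
  intro n M X Z g x hS hN hn hZ1 hZz hg hsupp hgA hH hDist
  have hZ0 : ∀ j, 0 ≤ Z j := hN.1
  have hMn : (M : ℝ) ≤ n := by
    rw [← hN.2]
    calc (M : ℝ) = ∑ j : Fin M, (1 : ℝ) := by simp
      _ ≤ ∑ j, Z j := Finset.sum_le_sum (fun j _ => hZ1 j)
  have hn0 : (0 : ℝ) ≤ n := Nat.cast_nonneg n
  -- nonnegativity
  have hD0 : 0 ≤ Dn (d / 8) X Z x := Dn_nonneg _ _ _ _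
  have hRt : ∀ k l, k ≠ l → 0 ≤ 1 / nr (x k - x l) - Kf (d / 8) (x k - x l) := fun k l h =>
    sub_nonneg.mpr ((hKK (d / 8) (x k - x l) (by positivity)).2.1 (hDist.1 k l h))
  have hKf : ∀ k l, Kf (d / 8) (x k - x l) ≤ 16 / d := fun k l => by
    have := (hKK (d / 8) (x k - x l) (by positivity)).2.2.2
    have h16 : 2 / (d / 8) = 16 / d := by field_simp; norm_num
    rwa [h16] at this
  have hRem0 : 0 ≤ Rem (d / 8) x := by
    refine Finset.sum_nonneg (fun k _ => Finset.sum_nonneg (fun l _ => ?_))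
    split_ifs with h
    · exact hRt k l (ne_of_lt h)
    · exact le_rfl
  have hnear2 : ∀ y, 0 ≤ near2 X d y := fun y => Finset.sum_nonneg (fun j _ => by
    split_ifs
    · have := nr_nonneg (y - X j)
      positivity
    · exact le_rfl)
  have hN20 : 0 ≤ ∑ k, near2 X d (x k) := Finset.sum_nonneg (fun k _ => hnear2 _)
  have hnear1 : ∑ k, near1 X d (x k) ≤ d * ∑ k, near2 X d (x k) := by
    rw [Finset.mul_sum]
    refine Finset.sum_le_sum (fun k _ => ?_)
    unfold near1 near2
    rw [Finset.mul_sum]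
    refine Finset.sum_le_sum (fun j _ => ?_)
    split_ifs with h
    · have h0 : 0 < nr (x k - X j) := lt_of_le_of_ne (nr_nonneg _) (Ne.symm (hDist.2 k j))
      rw [mul_one_div, div_le_div_iff₀ h0 (by positivity)]
      nlinarith
    · simp
  obtain ⟨N2, hN2⟩ : ∃ N2 : ℝ, N2 = ∑ k, near2 X d (x k) := ⟨_, rfl⟩
  obtain ⟨V, hV⟩ : ∃ V : ℝ, V = Vc X Z x := ⟨_, rfl⟩
  obtain ⟨D, hD⟩ : ∃ D : ℝ, D = Dn (d / 8) X Z x := ⟨_, rfl⟩
  obtain ⟨R, hR⟩ : ∃ R : ℝ, R = Rem (d / 8) x := ⟨_, rfl⟩
  have hES := H1 n M X Z x hS hN hZz hDist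
  have hNBx := H2 n M X Z x hS hZ0 hZz
  obtain ⟨e, he, hesum⟩ := H3 n M X Z x hS hZ0 hZz
  have he0 : ∀ i, 0 ≤ e i := fun i => (abs_nonneg _).trans (he i 0 (X i) (by
    rw [sub_self]; unfold nr; simp; exact hd.le))
  rw [← hD] at hES hNBx hesum hD0
  rw [← hV, ← hR] at hES
  rw [← hR] at hRem0
  rw [← hN2] at hN20 hnear1 ⊢
  rw [← hV]
  -- W
  have hW : 1 / 2 * D + R ≤ V + C1 * n + z * d * N2 := by
    have := mul_le_mul_of_nonneg_left hnear1 hz
    nlinarith
  -- indicators
  obtain ⟨c, hc⟩ : ∃ c : Fin M → Fin n → ℝ, c = fun i k =>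
    if nr (x k - X i) < 3 / 2 * d then 1 else 0 := ⟨_, rfl⟩
  have hcnt : ∀ i, cnt X (3 / 2 * d) x i = ∑ k, c i k := fun i => by rw [hc]; rfl
  have hc0 : ∀ i k, 0 ≤ c i k := fun i k => by rw [hc]; simp only; split_ifs <;> norm_num
  have hcd : ∀ i j k, i ≠ j → nr (x k - X i) < 3 / 2 * d → ¬ nr (x k - X j) < 3 / 2 * d := by
    intro i j k hij h1 h2
    have h3 := hS i j hij
    have h4 := nr_tri (X i) (x k) (X j)
    rw [nr_symm (X i) (x k)] at h4
    linarith
  obtain ⟨w, hw⟩ : ∃ w : Fin n → Fin n → ℝ, w = fun k l => ∑ i, c i k * c i l := ⟨_, rfl⟩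
  have hw0 : ∀ k l, 0 ≤ w k l := fun k l => by
    rw [hw]; exact Finset.sum_nonneg (fun i _ => mul_nonneg (hc0 _ _) (hc0 _ _))
  have hwi : ∀ i k l, nr (x k - X i) < 3 / 2 * d → w k l = c i l := by
    intro i k l hik
    rw [hw]
    simp only
    rw [Finset.sum_eq_single i]
    · have : c i k = 1 := by rw [hc]; simp [hik]
      rw [this, one_mul]
    · intro j _ hj
      have : c j k = 0 := by rw [hc]; simp only; rw [if_neg (hcd i j k (Ne.symm hj) hik)]
      rw [this, zero_mul]
    · simp
  have hw1 : ∀ k l, w k l ≤ 1 := by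
    intro k l
    by_cases h : ∃ i, nr (x k - X i) < 3 / 2 * d
    · obtain ⟨i, hi⟩ := h
      rw [hwi i k l hi, hc]
      simp only
      split_ifs <;> norm_num
    · push Not at h
      rw [hw]
      simp only
      rw [Finset.sum_eq_zero]
      · norm_num
      · intro i _
        have : c i k = 0 := by rw [hc]; simp only; rw [if_neg (not_lt.mpr (h i))]
        rw [this, zero_mul]
  have hwsym : ∀ k l, w k l = w l k := fun k l => by
    rw [hw]; exact Finset.sum_congr rfl (fun i _ => mul_comm _ _)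
  have hwsum : ∑ k, ∑ l, w k l = ∑ i, cnt X (3 / 2 * d) x i ^ 2 := by
    rw [hw]
    simp only
    have h1 : ∀ k, ∑ l, ∑ i, c i k * c i l = ∑ i, c i k * ∑ l, c i l := fun k => by
      rw [Finset.sum_comm]
      exact Finset.sum_congr rfl (fun i _ => by rw [Finset.mul_sum])
    simp only [h1]
    rw [Finset.sum_comm]
    refine Finset.sum_congr rfl (fun i _ => ?_)
    rw [← Finset.sum_mul, hcnt, pow_two]
  -- forces
  obtain ⟨h, hh⟩ : ∃ h : Fin n → Fin n → ℝ, h = fun k l =>
    (∑ m, pd m g (x k) * (x k m - x l m)) / nr (x k - x l) ^ 3 := ⟨_, rfl⟩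
  obtain ⟨q, hq⟩ : ∃ q : Fin n → Fin M → ℝ, q = fun k j =>
    (∑ m, pd m g (x k) * (x k m - X j m)) / nr (x k - X j) ^ 3 := ⟨_, rfl⟩
  have hh0 : ∀ k, h k k = 0 := fun k => by rw [hh]; simp
  have hf : ∀ k l, (∑ m, (pd m g (x k) - pd m g (x l)) * (x k m - x l m)) /
      nr (x k - x l) ^ 3 = h k l + h l k := by
    intro k l
    rw [hh]
    simp only
    rw [nr_symm (x l) (x k), ← add_div, ← Finset.sum_add_distrib]
    congr 1
    exact Finset.sum_congr rfl (fun m _ => by ring)
  have hVir : Vir X Z g x = 1 / 2 * ((∑ k, ∑ l, w k l * h k l) +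
      ∑ k, ((∑ l, (1 - w k l) * h k l) - ∑ j, Z j * q k j)) := by
    have e1 : (∑ k, ∑ l, if k < l then (∑ m, (pd m g (x k) - pd m g (x l)) * (x k m - x l m)) /
        nr (x k - x l) ^ 3 else 0) = ∑ k, ∑ l, h k l := by
      rw [tri h hh0]
      exact Finset.sum_congr rfl (fun k _ => Finset.sum_congr rfl (fun l _ => by rw [hf]))
    unfold Vir
    rw [e1]
    have e2 : ∑ k, ∑ l, h k l = (∑ k, ∑ l, w k l * h k l) + ∑ k, ∑ l, (1 - w k l) * h k l := by
      rw [← Finset.sum_add_distrib]
      refine Finset.sum_congr rfl (fun k _ => ?_)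
      rw [← Finset.sum_add_distrib]
      exact Finset.sum_congr rfl (fun l _ => by ring)
    rw [e2, Finset.sum_sub_distrib, hq]
    ring
  -- near part
  have hnearpart : -(A * (R + 16 / d * ∑ i, cnt X (3 / 2 * d) x i ^ 2)) ≤
      ∑ k, ∑ l, w k l * h k l := by
    rw [tri (fun k l => w k l * h k l) (fun k => by simp [hh0])]
    have step : ∀ k l, (if k < l then w k l * h k l + w l k * h l k else 0) ≥
        -(A * ((if k < l then 1 / nr (x k - x l) - Kf (d / 8) (x k - x l) else 0) +
          16 / d * w k l)) := by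
      intro k l
      split_ifs with hkl
      · rw [← hwsym k l, ← mul_add, ← hf]
        have h0 : 0 < nr (x k - x l) :=
          lt_of_le_of_ne (nr_nonneg _) (Ne.symm (hDist.1 k l (ne_of_lt hkl)))
        have hs := hess g hg A hH (x k) (x l)
        have h5 : -(A * (1 / nr (x k - x l))) ≤
            (∑ m, (pd m g (x k) - pd m g (x l)) * (x k m - x l m)) / nr (x k - x l) ^ 3 := by
          rw [le_div_iff₀ (by positivity)]
          refine le_trans (le_of_eq ?_) hs
          field_simp
        have h6 := hRt k l (ne_of_lt hkl)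
        have h7 := hKf k l
        have h8 := hw0 k l
        have h9 := hw1 k l
        have h10 : w k l * (1 / nr (x k - x l)) ≤
            (1 / nr (x k - x l) - Kf (d / 8) (x k - x l)) + 16 / d * w k l := by
          have a1 : w k l * (1 / nr (x k - x l) - Kf (d / 8) (x k - x l)) ≤
              1 / nr (x k - x l) - Kf (d / 8) (x k - x l) := by
            nlinarith
          have a2 : w k l * Kf (d / 8) (x k - x l) ≤ w k l * (16 / d) :=
            mul_le_mul_of_nonneg_left h7 h8
          nlinarith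
        have h11 := mul_le_mul_of_nonneg_left h5 h8
        have h12 := mul_le_mul_of_nonneg_left h10 hA0.le
        nlinarith
      · have := hw0 k l
        have : 0 ≤ A * (0 + 16 / d * w k l) := by positivity
        linarith
    have hsum : ∑ k, ∑ l, (-(A * ((if k < l then 1 / nr (x k - x l) - Kf (d / 8) (x k - x l)
        else 0) + 16 / d * w k l))) = -(A * (R + 16 / d * ∑ i, cnt X (3 / 2 * d) x i ^ 2)) := by
      rw [← hwsum, hR]
      unfold Rem
      simp only [Finset.sum_neg_distrib, ← Finset.mul_sum, Finset.sum_add_distrib]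
    rw [← hsum]
    exact Finset.sum_le_sum (fun k _ => Finset.sum_le_sum (fun l _ => step k l))
  -- far part
  have hfar : ∀ k, -(∑ i, if nr (x k - X i) < d then 3 * A * e i +
      3 * A * z * (1 / nr (x k - X i) ^ 2) else 0) ≤
      (∑ l, (1 - w k l) * h k l) - ∑ j, Z j * q k j := by
    intro k
    by_cases hk : ∀ j, d ≤ nr (x k - X j)
    · have hp : ∀ m, pd m g (x k) = 0 := fun m => hsupp m (x k) hk
      have h1 : ∀ l, h k l = 0 := fun l => by rw [hh]; simp [hp]
      have h2 : ∀ j, q k j = 0 := fun j => by rw [hq]; simp [hp]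
      simp only [h1, h2, mul_zero, Finset.sum_const_zero, sub_zero]
      rw [Finset.sum_eq_zero (fun i _ => by rw [if_neg (not_lt.mpr (hk i))])]
      simp
    · push Not at hk
      obtain ⟨i, hi⟩ := hk
      have hi' : nr (x k - X i) < 3 / 2 * d := by linarith
      have hsingle : (∑ i, if nr (x k - X i) < d then 3 * A * e i +
          3 * A * z * (1 / nr (x k - X i) ^ 2) else 0) =
          3 * A * e i + 3 * A * z * (1 / nr (x k - X i) ^ 2) := by
        rw [Finset.sum_eq_single i]
        · rw [if_pos hi]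
        · intro j _ hj
          rw [if_neg]
          intro hcon
          exact hcd i j k (Ne.symm hj) hi' (by linarith)
        · simp
      rw [hsingle]
      have hmain : (∑ l, (1 - w k l) * h k l) - ∑ j, Z j * q k j =
          (∑ m, pd m g (x k) * farE d X Z x i m (x k)) - Z i * q k i := by
        have e1 : ∑ j, Z j * q k j = (∑ j, if j = i then 0 else Z j * q k j) + Z i * q k i := by
          rw [← Finset.add_sum_erase _ _ (Finset.mem_univ i), add_comm,
            ← Finset.add_sum_erase _ (fun j => if j = i then 0 else Z j * q k j)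
              (Finset.mem_univ i)]
          simp only [if_true, zero_add]
          congr 1
          refine Finset.sum_congr rfl (fun j hj => ?_)
          rw [if_neg (Finset.ne_of_mem_erase hj)]
        have e2 : ∑ m, pd m g (x k) * farE d X Z x i m (x k) =
            (∑ l, (1 - w k l) * h k l) - ∑ j, if j = i then 0 else Z j * q k j := by
          unfold farE
          simp only [mul_sub, Finset.sum_sub_distrib, Finset.mul_sum]
          congr 1
          · rw [Finset.sum_comm]
            refine Finset.sum_congr rfl (fun l _ => ?_)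
            rw [hwi i k l hi', hc, hh]
            simp only
            split_ifs with hl
            · simp
            · rw [sub_zero, one_mul, Finset.sum_div]
              exact Finset.sum_congr rfl (fun m _ => by rw [mul_div_assoc])
          · rw [Finset.sum_comm]
            refine Finset.sum_congr rfl (fun j _ => ?_)
            split_ifs with hj
            · simp
            · rw [hq]
              simp only
              rw [Finset.sum_div, Finset.mul_sum]
              exact Finset.sum_congr rfl (fun m _ => by ring)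
        rw [e1, e2]
        ring
      rw [hmain]
      have b1 : -(3 * A * e i) ≤ ∑ m, pd m g (x k) * farE d X Z x i m (x k) := by
        have : ∀ m, -(A * e i) ≤ pd m g (x k) * farE d X Z x i m (x k) := by
          intro m
          have h1 := hgA m (x k)
          have h2 := he i m (x k) hi.le
          have h3 : |pd m g (x k) * farE d X Z x i m (x k)| ≤ A * e i := by
            rw [abs_mul]
            exact mul_le_mul h1 h2 (abs_nonneg _) hA0.le
          exact (abs_le.mp h3).1
        have h0 := this 0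
        have h1 := this 1
        have h2 := this 2
        rw [Fin.sum_univ_three]
        linarith
      have b2 : Z i * q k i ≤ 3 * A * z * (1 / nr (x k - X i) ^ 2) := by
        have h0 : 0 < nr (x k - X i) :=
          lt_of_le_of_ne (nr_nonneg _) (Ne.symm (hDist.2 k i))
        have hq1 : q k i ≤ 3 * A * (1 / nr (x k - X i) ^ 2) := by
          rw [hq]
          simp only
          rw [div_le_iff₀ (by positivity)]
          have : ∀ m, pd m g (x k) * (x k m - X i m) ≤ A * nr (x k - X i) := by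
            intro m
            have h1 := hgA m (x k)
            have h2 := abs_le_nr (x k - X i) m
            have h3 : |pd m g (x k) * (x k m - X i m)| ≤ A * nr (x k - X i) := by
              rw [abs_mul]
              exact mul_le_mul h1 h2 (abs_nonneg _) hA0.le
            exact (abs_le.mp h3).2
          have h1 := this 0
          have h2 := this 1
          have h3 := this 2
          rw [Fin.sum_univ_three]
          have h4 : 3 * A * (1 / nr (x k - X i) ^ 2) * nr (x k - X i) ^ 3 =
              3 * (A * nr (x k - X i)) := by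
            field_simp
          rw [h4]
          linarith
        have hz2 := hZz i
        have hz3 := hZ0 i
        have h5 : 0 ≤ 3 * A * (1 / nr (x k - X i) ^ 2) := by positivity
        nlinarith
      linarith
  have hfarsum : -(3 * A * ∑ i, cnt X (3 / 2 * d) x i * e i) - 3 * A * z * N2 ≤
      ∑ k, ((∑ l, (1 - w k l) * h k l) - ∑ j, Z j * q k j) := by
    refine le_trans ?_ (Finset.sum_le_sum (fun k _ => hfar k))
    rw [Finset.sum_neg_distrib]
    have h1 : (∑ k, ∑ i, if nr (x k - X i) < d then 3 * A * e i +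
        3 * A * z * (1 / nr (x k - X i) ^ 2) else 0) ≤
        3 * A * (∑ i, cnt X (3 / 2 * d) x i * e i) + 3 * A * z * N2 := by
      have h2 : ∀ k i, (if nr (x k - X i) < d then 3 * A * e i +
          3 * A * z * (1 / nr (x k - X i) ^ 2) else 0) ≤ 3 * A * (c i k * e i) +
          3 * A * z * (if nr (x k - X i) < d then 1 / nr (x k - X i) ^ 2 else 0) := by
        intro k i
        split_ifs with hki
        · have : c i k = 1 := by rw [hc]; simp only; rw [if_pos (by linarith)]
          rw [this]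
          linarith
        · have := hc0 i k
          have := he0 i
          simp only [mul_zero, add_zero]
          positivity
      refine (Finset.sum_le_sum (fun k _ => Finset.sum_le_sum (fun i _ => h2 k i))).trans
        (le_of_eq ?_)
      simp only [Finset.sum_add_distrib, ← Finset.mul_sum]
      rw [hN2]
      congr 1
      rw [Finset.sum_comm]
      congr 1
      refine Finset.sum_congr rfl (fun i _ => ?_)
      rw [hcnt, Finset.sum_mul]
    linarith
  -- conclusion
  obtain ⟨Q, hQ⟩ : ∃ Q : ℝ, Q = ∑ i, cnt X (3 / 2 * d) x i ^ 2 := ⟨_, rfl⟩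
  obtain ⟨Ee, hEe⟩ : ∃ Ee : ℝ, Ee = ∑ i, e i ^ 2 := ⟨_, rfl⟩
  have hce : ∑ i, cnt X (3 / 2 * d) x i * e i ≤ (Q + Ee) / 2 := by
    rw [hQ, hEe, ← Finset.sum_add_distrib, Finset.sum_div]
    exact Finset.sum_le_sum (fun i _ => by nlinarith [sq_nonneg (cnt X (3 / 2 * d) x i - e i)])
  rw [← hQ] at hNBx hnearpart
  rw [← hEe] at hesum
  have hR1 : R ≤ V + C1 * n + z * d * N2 := by linarith
  have hD1 : D ≤ 2 * (V + C1 * n + z * d * N2) := by linarith
  obtain ⟨W, hWd⟩ : ∃ W : ℝ, W = V + C1 * n + z * d * N2 := ⟨_, rfl⟩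
  rw [← hWd] at hR1 hD1 hW
  have hW0 : 0 ≤ W := by linarith
  have hVW : V = W - C1 * n - z * d * N2 := by rw [hWd]; ring
  have hzd : 0 ≤ z * d := by positivity
  constructor
  · rw [hVW]
    have : 0 ≤ (K + 1) * n := by positivity
    have : 0 ≤ (K + C1 + 1) * N2 := by positivity
    have : 0 ≤ z * d * n := by positivity
    nlinarith
  · rw [hVir]
    have k1 : Q ≤ C2 * (n + 2 * W) := hNBx.trans (by
      apply mul_le_mul_of_nonneg_left _ hC2.le; linarith)
    have k2 : Ee ≤ C3 * (n + 2 * W) := hesum.trans (by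
      apply mul_le_mul_of_nonneg_left _ hC3.le; linarith)
    have k3 : A * (16 / d * Q) ≤ 16 * A / d * C2 * (n + 2 * W) := by
      have : A * (16 / d * Q) = 16 * A / d * Q := by ring
      rw [this, mul_assoc]
      apply mul_le_mul_of_nonneg_left k1 (by positivity)
    have k4 : 3 * A * ∑ i, cnt X (3 / 2 * d) x i * e i ≤ 3 * A / 2 * (C2 + C3) * (n + 2 * W) := by
      have a1 := mul_le_mul_of_nonneg_left hce (show (0 : ℝ) ≤ 3 * A by positivity)
      have a2 := mul_le_mul_of_nonneg_left (add_le_add k1 k2)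
        (show (0 : ℝ) ≤ 3 * A / 2 by positivity)
      nlinarith
    have k5 : A * R ≤ A * W := mul_le_mul_of_nonneg_left hR1 hA0.le
    have k6 : -(K * (W + n + N2)) ≤ 1 / 2 * ((∑ k, ∑ l, w k l * h k l) +
        ∑ k, ((∑ l, (1 - w k l) * h k l) - ∑ j, Z j * q k j)) := by
      have a1 : B * (n + 2 * W) = 16 * A / d * C2 * (n + 2 * W) +
          3 * A / 2 * (C2 + C3) * (n + 2 * W) := by rw [hB]; ring
      have a2 : 0 ≤ A * n := by positivity
      have a3 : 0 ≤ B * n := by positivity
      have a4 : 0 ≤ 3 * A * z * n := by positivity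
      have a5 : 0 ≤ A * N2 := by positivity
      have a6 : 0 ≤ B * N2 := by positivity
      have a7 : 0 ≤ 3 * A * z * W := by positivity
      have a8 : 0 ≤ 3 * A * z * N2 := by positivity
      have a9 : 0 ≤ A * W := by positivity
      have a10 : 0 ≤ B * W := by positivity
      rw [hK]
      nlinarith
    refine le_trans ?_ k6
    rw [hVW]
    have b1 : 0 ≤ (C1 + z * d + 1) * W := by positivity
    have b2 : 0 ≤ (K + C1 + z * d + 1) * (K + z * d) * n := by positivity
    have b3 : 0 ≤ (K + C1 + z * d + 1) * (K + C1) * N2 := by positivity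
    have b4 : 0 ≤ (C1 + z * d + 1) * n := by positivity
    have b5 : 0 ≤ (C1 + z * d + 1) * N2 := by positivity
    nlinarith

end Pool.Agent.Helper28.LN
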